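import Pool.Agent.H53.PZ.Gamma
import Pool.Agent.H38.PZ.Defs2

open Finset

namespace Pool.Agent.H53.PZ

open Pool.Agent.H38.PZ

/-- Pigeonhole. -/
lemma pigeon2 {ι : Type} {F : Finset ι} (G : ℕ) (P : ι → ℕ → Prop) (hne : F.Nonempty)
    [∀ f, DecidablePred (P f)]
    (h : ∀ g < G, ∃ f ∈ F, P f g) : ∃ f ∈ F, G ≤ F.card * ((range G).filter (P f)).card := by
  have h1 : range G ⊆ F.biUnion fun f => (range G).filter (P f) := by
    intro g hg
    obtain ⟨f, hf, hfT⟩ := h g (Finset.mem_range.1 hg)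
    exact Finset.mem_biUnion.2 ⟨f, hf, Finset.mem_filter.2 ⟨hg, hfT⟩⟩
  have h2 := (Finset.card_le_card h1).trans Finset.card_biUnion_le
  rw [Finset.card_range] at h2
  by_contra hcon
  push Not at hcon
  have h3 : F.card * ∑ f ∈ F, ((range G).filter (P f)).card < F.card * G := by
    rw [Finset.mul_sum]
    calc ∑ f ∈ F, F.card * ((range G).filter (P f)).card
        < ∑ _f ∈ F, G := Finset.sum_lt_sum_of_nonempty hne hcon
      _ = F.card * G := by rw [Finset.sum_const, smul_eq_mul]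
  exact absurd (Nat.mul_le_mul_left F.card h2) (not_le.2 h3)

theorem gamma2 (n b e : ℕ) (hn : 0 < n) (hb : Odd b) (he : 0 < e) : S_gamma2 n b (2 ^ e) := by
  classical
  intro F hF
  have hb0 : 0 < b := hb.pos
  have hbR : (0 : ℝ) < b := by exact_mod_cast hb0
  set Sf : ℝ := ∑ p ∈ F, (p.1 : ℝ) with hSf
  have hfpos : ∀ p ∈ F, (0 : ℝ) < p.1 := fun p hp => by exact_mod_cast (hF p hp).1.1
  have hfle : ∀ p ∈ F, (p.1 : ℝ) ≤ Sf := fun p hp =>
    Finset.single_le_sum (f := fun p : ℤ × ℕ => (p.1 : ℝ)) (fun g hg => (hfpos g hg).le) hp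
  have hSf0 : 0 ≤ Sf := Finset.sum_nonneg fun g hg => (hfpos g hg).le
  refine ⟨1 / (32 * b * (F.card + 1) * (Sf + 1)), by positivity, ?_⟩
  intro q hq hbJ A' N
  obtain ⟨j, o, ho, hqo⟩ := Nat.exists_eq_two_pow_mul_odd hq.ne'
  have hcop : Nat.Coprime (2 ^ e) o := Nat.Coprime.pow_left _ ((Nat.coprime_two_left).2 ho)
  have hJj : 2 ^ e ∣ 2 ^ j := by
    have h1 : 2 ^ e ∣ 2 ^ j * o := hqo ▸ (Dvd.intro_left b rfl).trans hbJ
    exact hcop.dvd_of_dvd_mul_right h1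
  have hbo : b ∣ o := by
    have h1 : b ∣ 2 ^ j * o := hqo ▸ (Dvd.intro (2 ^ e) rfl).trans hbJ
    exact (Nat.Coprime.pow_right _ ((Nat.coprime_two_right).2 hb)).dvd_of_dvd_mul_left h1
  have hej : e ≤ j := (Nat.pow_dvd_pow_iff_le_right (by norm_num)).1 hJj
  have hj0 : 0 < j := lt_of_lt_of_le he hej
  have hqz : (q : ℤ) = 2 ^ j * o := by rw [hqo]; push_cast; ring
  have hq' : (0 : ℤ) < q := by exact_mod_cast hq
  have hq1 : (1 : ℝ) ≤ q := by exact_mod_cast hq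
  set δ : ℝ := min (1 / 8) (1 / (16 * (|A'| + 1))) with hδ
  have hδ0 : 0 < δ := by
    rw [hδ]
    exact lt_min (by norm_num) (by positivity)
  have hδ1 : δ ≤ 1 / 8 := min_le_left _ _
  have hδ2 : δ * A' ≤ 1 / 16 := by
    have h1 : δ ≤ 1 / (16 * (|A'| + 1)) := min_le_right _ _
    calc δ * A' ≤ δ * |A'| := mul_le_mul_of_nonneg_left (le_abs_self _) hδ0.le
      _ ≤ 1 / (16 * (|A'| + 1)) * |A'| := mul_le_mul_of_nonneg_right h1 (abs_nonneg _)
      _ ≤ 1 / (16 * (|A'| + 1)) * (|A'| + 1) := mul_le_mul_of_nonneg_left (by linarith) (by positivity)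
      _ = 1 / 16 := by field_simp
  -- the elements `ζ`
  have hz' : ∀ p : ℤ × ℕ, ∃ ζ : ℤ, p ∈ F → (o : ℤ) ∣ ζ ^ n - ((2 ^ p.2 : ℕ) : ℤ) ∧
      (2 : ℤ) ^ j ∣ ζ ^ n - (((2 ^ p.2 : ℕ) : ℤ) + b * p.1) := by
    intro f
    by_cases hf : f ∈ F
    · obtain ⟨ζ, h⟩ := (hF f hf).2.2 j o ho f.1 (hF f hf).1.2
      exact ⟨ζ, fun _ => h⟩
    · exact ⟨0, fun h => absurd h hf⟩
  choose ζ hζ using hz'
  have ev1 := (Filter.eventually_all_finset F).2 fun f hf => choice hn hq' (ζ f) N hδ0 (hfpos f hf)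
  have ev2 : ∀ᶠ M : ℕ in Filter.atTop, ∀ f ∈ F, 16 * ((2 ^ f.2 : ℕ) : ℝ) * (|A'| + 1) ≤ (M : ℝ) ^ n * f.1 := by
    rw [Filter.eventually_all_finset]
    intro f hf
    have e1 := (tendsto_natCast_atTop_atTop (R := ℝ)).eventually_ge_atTop (16 * ((2 ^ f.2 : ℕ) : ℝ) * (|A'| + 1) / f.1)
    filter_upwards [e1, Filter.eventually_ge_atTop 1] with M h1 hM
    have hM' : (1 : ℝ) ≤ M := by exact_mod_cast hM
    rw [div_le_iff₀ (hfpos f hf)] at h1
    exact h1.trans (mul_le_mul_of_nonneg_right (le_self_pow₀ hM' hn.ne') (hfpos f hf).le)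
  obtain ⟨M, hMc, hMe, hM1⟩ := (ev1.and (ev2.and (Filter.eventually_ge_atTop 1))).exists
  have hM' : (1 : ℝ) ≤ M := by exact_mod_cast hM1
  have hMn : (1 : ℝ) ≤ (M : ℝ) ^ n := one_le_pow₀ hM'
  have hk' : ∀ f : ℤ × ℕ, ∃ k : ℤ, f ∈ F → ∀ v < N, 0 < ζ f + q * (k + (v : ℤ)) ∧
      |((ζ f + q * (k + (v : ℤ)) : ℤ) : ℝ) ^ n - (M : ℝ) ^ n * f.1| ≤ δ * ((M : ℝ) ^ n * f.1) := by
    intro f
    by_cases hf : f ∈ F
    · obtain ⟨k, h⟩ := hMc f hf
      exact ⟨k, fun _ => h⟩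
    · exact ⟨0, fun h => absurd h hf⟩
  choose k hk using hk'
  have hmod : ∀ f : ℤ × ℕ, ∀ v : ℕ, (q : ℤ) ∣ (ζ f + q * (k f + (v : ℤ))) ^ n - ζ f ^ n := fun f v =>
    (Dvd.intro _ (by ring : (q : ℤ) * (k f + (v : ℤ)) = (ζ f + q * (k f + (v : ℤ))) - ζ f)).trans
      (sub_dvd_pow_sub_pow _ _ n)
  have hoq : (o : ℤ) ∣ q := ⟨2 ^ j, by rw [hqz]; ring⟩
  have h2q : (2 : ℤ) ^ j ∣ q := ⟨o, by rw [hqz]⟩
  have hlo : ∀ f ∈ F, ∀ v : ℕ, (o : ℤ) ∣ (ζ f + q * (k f + (v : ℤ))) ^ n - ((2 ^ f.2 : ℕ) : ℤ) := fun f hf v => by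
    have := (hoq.trans (hmod f v)).add (hζ f hf).1
    rwa [sub_add_sub_cancel] at this
  have hl2 : ∀ f ∈ F, ∀ v : ℕ, (2 : ℤ) ^ j ∣ (ζ f + q * (k f + (v : ℤ))) ^ n - (((2 ^ f.2 : ℕ) : ℤ) + b * f.1) :=
    fun f hf v => by
      have := (h2q.trans (hmod f v)).add (hζ f hf).2
      rwa [sub_add_sub_cancel] at this
  have hboz : (b : ℤ) ∣ o := by exact_mod_cast hbo
  refine ⟨fun f v => ζ f + q * (k f + (v : ℤ)), fun f hf v hv => (hk f hf v hv).1, fun f hf v _ => ?_,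
    fun f hf v _ v' _ => ?_, ?_, ?_⟩
  · have := hboz.trans (hlo f hf v)
    push_cast at this
    exact this
  · have := dvd_sub (hmod f v) (hmod f v')
    rwa [sub_sub_sub_cancel_right] at this
  · intro f hf v hv v' hv' hne h
    have h1 := (pow_left_inj₀ (hk f hf v hv).1.le (hk f hf v' hv').1.le hn.ne').1 h
    apply hne
    have h2 : (q : ℤ) * (k f + (v : ℤ)) = q * (k f + (v' : ℤ)) := by linarith
    have h3 := mul_left_cancel₀ hq'.ne' h2
    have h4 : (v : ℤ) = v' := by linarith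
    exact_mod_cast h4
  obtain ⟨S₀, hS₀⟩ : ∃ S₀ : ℕ, 8 * b + 4 * ((M : ℝ) ^ n * Sf) + 1 ≤ S₀ := exists_nat_ge _
  refine ⟨S₀, ?_⟩
  intro S hS y hy1 hy2 hy3 T hT
  have hSR : 8 * b + 4 * ((M : ℝ) ^ n * Sf) + 1 ≤ S := hS₀.trans (by exact_mod_cast hS)
  have hMSf : 0 ≤ (M : ℝ) ^ n * Sf := by positivity
  have hS0 : (0 : ℝ) < S := by linarith
  have hSpos : 0 < S := by exact_mod_cast hS0
  have hy0 : (0 : ℝ) < y := lt_of_lt_of_le (by positivity) hy1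
  obtain ⟨h0, hh1, hh2, hh3, hh4⟩ := crt ho y hqo ((M : ℝ) ^ n * (y + 3 * (q * S) / 8) / b)
  rw [div_le_iff₀ hbR] at hh1
  have hh2' : (h0 : ℝ) * b < (M : ℝ) ^ n * (y + 3 * (q * S) / 8) + q * b := by
    have := mul_lt_mul_of_pos_right hh2 hbR
    rwa [add_mul, div_mul_cancel₀ _ hbR.ne'] at this
  obtain ⟨G, hGd⟩ : ∃ G : ℕ, G = M ^ n * S / (4 * b) := ⟨_, rfl⟩
  have hGu : (G : ℝ) * (4 * b) ≤ (M : ℝ) ^ n * S := by
    have h1 : G * (4 * b) ≤ M ^ n * S := by rw [hGd]; exact Nat.div_mul_le_self _ _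
    exact_mod_cast h1
  have hMS : (S : ℝ) ≤ (M : ℝ) ^ n * S := by nlinarith
  have hGl : (M : ℝ) ^ n * S / (8 * b) ≤ G := by
    have h1 : M ^ n * S < (G + 1) * (4 * b) := by
      rw [hGd]
      have := Nat.lt_div_mul_add (a := M ^ n * S) (b := 4 * b) (by omega)
      rw [add_mul, one_mul]
      exact this
    have h2 : (M : ℝ) ^ n * S < (G + 1) * (4 * b) := by exact_mod_cast h1
    rw [div_le_iff₀ (by positivity)]
    linarith
  -- the elements h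
  have hh : ∀ g < G, (M : ℝ) ^ n * (y + 3 * (q * S) / 8) ≤ b * ((h0 + q * g : ℤ) : ℝ) ∧
      b * ((h0 + q * g : ℤ) : ℝ) ≤ (M : ℝ) ^ n * (y + 5 * (q * S) / 8) := by
    intro g hg
    push_cast
    have hg0 : (0 : ℝ) ≤ g := Nat.cast_nonneg _
    have hg1 : (g : ℝ) + 1 ≤ G := by exact_mod_cast hg
    have h1 : 0 ≤ (b : ℝ) * (q * g) := by positivity
    have h2 : (b : ℝ) * q * (g + 1) ≤ b * q * G := mul_le_mul_of_nonneg_left hg1 (by positivity)
    have h3 : (q : ℝ) * (G * (4 * b)) ≤ q * ((M : ℝ) ^ n * S) := mul_le_mul_of_nonneg_left hGu (by linarith)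
    constructor
    · linarith
    · linarith
  have hqS : (0 : ℝ) < q * S := by positivity
  have hP1 : ∀ g < G, P1 (2 ^ e) (h0 + q * g) := by
    intro g hg
    constructor
    · have h1 := (hh g hg).1
      have h2 : 0 < (M : ℝ) ^ n * (y + 3 * (q * S) / 8) := by positivity
      have h3 : 0 < ((h0 + q * g : ℤ) : ℝ) := by
        by_contra hneg
        rw [not_lt] at hneg
        have := mul_nonpos_of_nonneg_of_nonpos hbR.le hneg
        linarith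
      exact_mod_cast h3
    · have hJ2 : (((2 ^ e : ℕ) : ℤ)) ∣ 2 ^ j := by exact_mod_cast hJj
      have h1 := (hJ2.trans hh4).add hy3
      have h2 : ((2 ^ e : ℕ) : ℤ) ∣ q * g := (hJ2.trans h2q).mul_right _
      have h3 := h1.add h2
      have e1 : h0 - y + (y - 1) + q * g = h0 + q * g - 1 := by ring
      rwa [e1] at h3
  have hFne : F.Nonempty := by
    obtain ⟨f, hf, _⟩ := hT 1 ⟨one_pos, by simp⟩
    exact ⟨f, hf⟩
  obtain ⟨p, hp, hfG⟩ := pigeon2 (F := F) G (fun (p : ℤ × ℕ) (g : ℕ) => p.1 * (h0 + q * g) ∈ T p) hFne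
    (fun g hg => hT _ (hP1 g hg))
  refine ⟨p, hp, fun v hv => ?_⟩
  obtain ⟨hZ0, hZa⟩ := hk p hp v hv
  have hlo' := hlo p hp v
  have hl2' := hl2 p hp v
  dsimp only
  obtain ⟨lam, hlam⟩ : ∃ lam : ℤ, lam = (ζ p + q * (k p + (v : ℤ))) ^ n := ⟨_, rfl⟩
  rw [← hlam] at hlo' hl2' ⊢
  have hZa' : |(lam : ℝ) - (M : ℝ) ^ n * p.1| ≤ δ * ((M : ℝ) ^ n * p.1) := by
    rw [hlam]
    push_cast
    push_cast at hZa
    exact hZa
  have hlam0 : 0 < lam := by rw [hlam]; exact pow_pos hZ0 n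
  have hf0 := hfpos p hp
  have hX : 0 < (M : ℝ) ^ n * p.1 := by positivity
  have hXS : (M : ℝ) ^ n * p.1 ≤ (M : ℝ) ^ n * Sf := mul_le_mul_of_nonneg_left (hfle p hp) (by linarith)
  have hlamu : (lam : ℝ) ≤ 2 * ((M : ℝ) ^ n * p.1) := by
    have h1 := (abs_le.1 hZa').2
    have h2 : δ * ((M : ℝ) ^ n * p.1) ≤ 1 / 8 * ((M : ℝ) ^ n * p.1) := mul_le_mul_of_nonneg_right hδ1 hX.le
    linarith
  obtain ⟨R, hRd⟩ : ∃ R : ℕ, R = S / lam.toNat := ⟨_, rfl⟩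
  have hlt : ((lam.toNat : ℕ) : ℤ) = lam := Int.toNat_of_nonneg hlam0.le
  have hlt0 : 0 < lam.toNat := by omega
  have hltR : ((lam.toNat : ℕ) : ℝ) = lam := by
    have : (((lam.toNat : ℕ) : ℤ) : ℝ) = (lam : ℝ) := by rw [hlt]
    exact_mod_cast this
  have hRu : lam * R ≤ S := by
    have h1 : R * lam.toNat ≤ S := by rw [hRd]; exact Nat.div_mul_le_self _ _
    have h2 : (R : ℤ) * (lam.toNat : ℕ) ≤ S := by exact_mod_cast h1
    rw [hlt] at h2
    linarith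
  have hRl : (S : ℝ) / (4 * (M : ℝ) ^ n * p.1) ≤ R := by
    have h1 : S < (R + 1) * lam.toNat := by
      rw [hRd, add_mul, one_mul]
      exact Nat.lt_div_mul_add (a := S) hlt0
    have h2 : (S : ℝ) < (R + 1) * lam := by
      rw [← hltR]
      exact_mod_cast h1
    have hR0 : (0 : ℝ) ≤ R := Nat.cast_nonneg _
    have h3 : (R + 1) * (lam : ℝ) ≤ (R + 1) * (2 * ((M : ℝ) ^ n * p.1)) :=
      mul_le_mul_of_nonneg_left hlamu (by linarith)
    rw [div_le_iff₀ (by positivity)]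
    linarith
  have hA1 : (1 : ℝ) ≤ ((2 ^ p.2 : ℕ) : ℝ) := by exact_mod_cast Nat.one_le_two_pow
  have hMf := hMe p hp
  have habs : A' ≤ |A'| := le_abs_self _
  have hcf := final (A := 2 ^ p.2) (b := b) (by positivity) hb0 (q := q) (S := S) (R := R) (f := p.1) (lam := lam)
    (y := y) (h0 := h0) (T := T p) hSpos hq hlam0
    (coprime_lam (hF p hp).2.1 hj0 hb (odd_of he rfl (hF p hp).1.2) hl2') hRu (hF p hp).1.1
    ((range G).filter fun g : ℕ => p.1 * (h0 + q * g) ∈ T p) (by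
      intro g hg
      have hco : IsCoprime ((2 : ℤ) ^ j) (o : ℤ) := by
        apply IsCoprime.pow_left
        obtain ⟨c, hc⟩ := ho
        exact ⟨-c, 1, by rw [hc]; push_cast; ring⟩
      rw [hqz]
      apply hco.mul_dvd
      · have e1 : b * p.1 * (h0 + 2 ^ j * o * g) - (lam - ((2 ^ p.2 : ℕ) : ℤ)) * y
          = b * p.1 * (h0 - y) + 2 ^ j * (b * p.1 * o * g) - (lam - (((2 ^ p.2 : ℕ) : ℤ) + b * p.1)) * y := by ring
        rw [e1]
        exact ((hh4.mul_left _).add (Dvd.intro _ rfl)).sub (hl2'.mul_right _)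
      · have e1 : b * p.1 * (h0 + 2 ^ j * o * g) - (lam - ((2 ^ p.2 : ℕ) : ℤ)) * y
          = b * p.1 * h0 + o * (b * p.1 * 2 ^ j * g) - (lam - ((2 ^ p.2 : ℕ) : ℤ)) * y := by ring
        rw [e1]
        exact ((hh3.mul_left _).add (Dvd.intro _ rfl)).sub (hlo'.mul_right _)) ?_ ?_ (by
      intro g hg
      exact (Finset.mem_filter.1 hg).2)
  · have hGW : (G : ℝ) ≤ F.card * (((range G).filter fun g : ℕ => p.1 * (h0 + q * g) ∈ T p).card : ℝ) := by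
      exact_mod_cast hfG
    push_cast at hcf
    refine arith hS0 (Nat.cast_nonneg _) (by linarith) hf0 hbR hGl hRl hGW hcf (hfle p hp) ?_
    unfold E2 av ind
    refine div_nonneg (Finset.sum_nonneg fun s _ => div_nonneg (Finset.sum_nonneg fun t _ => ?_)
      (Nat.cast_nonneg _)) (Nat.cast_nonneg _)
    dsimp only
    split_ifs <;> norm_num
  all_goals
    intro g hg
    obtain ⟨b1, b2⟩ := hh g (Finset.mem_range.1 (Finset.mem_filter.1 hg).1)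
    obtain ⟨c1, c2⟩ := est (X := (M : ℝ) ^ n * p.1) (lam := lam) (A := ((2 ^ p.2 : ℕ) : ℝ)) (y := y) (q := q) (S := S)
      (A' := A') (δ := δ) (B := b * p.1 * ((h0 + q * g : ℤ) : ℝ)) hX hZa' hδ0 hδ1 hδ2 (by linarith) hy0 hy2 hq1 hS0
      (by nlinarith [abs_nonneg A']) (by nlinarith [abs_nonneg A'])
      (by
        have := mul_le_mul_of_nonneg_right b1 hf0.le
        linarith)
      (by
        have := mul_le_mul_of_nonneg_right b2 hf0.le
        linarith)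
  · exact_mod_cast c1
  · exact_mod_cast c2

end Pool.Agent.H53.PZ
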