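import Pool.Agent.H38.PZ.Defs

open Finset

namespace Pool.Agent.H53.PZ

open Pool.Agent.H38.PZ

lemma E2_ge {S : ℕ} (hS : 0 < S) {Φ : ℤ → ℤ → ℝ} (hΦ : ∀ s t, 0 ≤ Φ s t) (P : Finset (ℕ × ℕ))
    (hP : ∀ p ∈ P, p.1 < S ∧ p.2 < S ∧ 1 ≤ Φ p.1 p.2) : (P.card : ℝ) ≤ E2 S Φ * (S : ℝ) ^ 2 := by
  have hS' : (S : ℝ) ≠ 0 := by positivity
  have h1 : E2 S Φ * (S : ℝ) ^ 2 = ∑ s ∈ range S, ∑ t ∈ range S, Φ (s : ℤ) (t : ℤ) := by
    unfold E2 av
    rw [← Finset.sum_div]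
    field_simp
  rw [h1, ← Finset.sum_product']
  calc (P.card : ℝ) = ∑ p ∈ P, (1 : ℝ) := by simp
    _ ≤ ∑ p ∈ P, Φ p.1 p.2 := Finset.sum_le_sum fun p hp => (hP p hp).2.2
    _ ≤ ∑ p ∈ range S ×ˢ range S, Φ p.1 p.2 := Finset.sum_le_sum_of_subset_of_nonneg (by
        intro p hp
        exact Finset.mem_product.2 ⟨Finset.mem_range.2 (hP p hp).1, Finset.mem_range.2 (hP p hp).2.1⟩)
          (fun _ _ _ => hΦ _ _)

lemma sol {lam A : ℤ} (hlam : 0 < lam) (hc : IsCoprime lam A) (m : ℤ) :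
    ∃ s0 t0 : ℤ, 0 ≤ t0 ∧ t0 < lam ∧ lam * s0 - A * t0 = m := by
  obtain ⟨u, w, h⟩ := hc
  refine ⟨m * u - A * ((-m * w) / lam), (-m * w) % lam, Int.emod_nonneg _ hlam.ne',
    Int.emod_lt_of_pos _ hlam, ?_⟩
  have h2 := Int.emod_add_mul_ediv (-m * w) lam
  generalize (-m * w) % lam = r at h2 ⊢
  generalize (-m * w) / lam = k at h2 ⊢
  linear_combination m * h - A * h2

lemma count {S R : ℕ} (hS : 0 < S) {A lam : ℤ} (hlam : 0 < lam) (hA : 0 < A) (hc : IsCoprime lam A)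
    (hR : lam * R ≤ S) {Φ : ℤ → ℤ → ℝ}
    (hΦ : ∀ s t, 0 ≤ Φ s t) {ι : Type} (W : Finset ι) (m : ι → ℤ)
    (hinj : ∀ w ∈ W, ∀ w' ∈ W, m w = m w' → w = w') (hm0 : ∀ w ∈ W, 0 ≤ m w)
    (hm1 : ∀ w ∈ W, m w + A * S ≤ lam * S)
    (hΦ1 : ∀ w ∈ W, ∀ s t : ℤ, lam * s - A * t = m w → 1 ≤ Φ s t) :
    (W.card : ℝ) * R ≤ E2 S Φ * (S : ℝ) ^ 2 := by
  classical
  choose s0 t0 h1 h2 h3 using sol hlam hc
  have key : ∀ w ∈ W, ∀ i < R, 0 ≤ t0 (m w) + lam * i ∧ t0 (m w) + lam * i < S ∧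
      0 ≤ s0 (m w) + A * i ∧ s0 (m w) + A * i < S ∧
      lam * (s0 (m w) + A * i) - A * (t0 (m w) + lam * i) = m w := by
    intro w hw i hi
    have e : lam * (s0 (m w) + A * i) - A * (t0 (m w) + lam * i) = m w := by
      linear_combination h3 (m w)
    have a1 : 0 ≤ t0 (m w) + lam * i := by
      have := h1 (m w)
      positivity
    have a2 : t0 (m w) + lam * i < S := by
      have h4 := h2 (m w)
      have h5 : lam * ((i : ℤ) + 1) ≤ lam * R := by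
        apply mul_le_mul_of_nonneg_left _ hlam.le
        exact_mod_cast hi
      linarith
    have a3 : 0 ≤ lam * (s0 (m w) + A * i) := by
      have := hm0 w hw
      have := mul_nonneg hA.le a1
      linarith
    have a4 : lam * (s0 (m w) + A * i) < lam * S := by
      have := hm1 w hw
      have := mul_lt_mul_of_pos_left a2 hA
      linarith
    exact ⟨a1, a2, nonneg_of_mul_nonneg_right a3 hlam, lt_of_mul_lt_mul_left a4 hlam.le, e⟩
  set P : Finset (ℕ × ℕ) := (W ×ˢ range R).image fun p =>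
    ((s0 (m p.1) + A * (p.2 : ℤ)).toNat, (t0 (m p.1) + lam * (p.2 : ℤ)).toNat) with hP
  have hcard : P.card = W.card * R := by
    rw [hP, Finset.card_image_of_injOn, Finset.card_product, Finset.card_range]
    intro p hp p' hp' hpp
    have hp := Finset.mem_product.1 (Finset.mem_coe.1 hp)
    have hp' := Finset.mem_product.1 (Finset.mem_coe.1 hp')
    obtain ⟨k1, k2, k3, k4, k5⟩ := key p.1 hp.1 p.2 (Finset.mem_range.1 hp.2)
    obtain ⟨l1, l2, l3, l4, l5⟩ := key p'.1 hp'.1 p'.2 (Finset.mem_range.1 hp'.2)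
    have e1 := congrArg Prod.fst hpp
    have e2 := congrArg Prod.snd hpp
    dsimp only at e1 e2
    have e1' : s0 (m p.1) + A * (p.2 : ℤ) = s0 (m p'.1) + A * (p'.2 : ℤ) := by
      rw [← Int.toNat_of_nonneg k3, ← Int.toNat_of_nonneg l3, e1]
    have e2' : t0 (m p.1) + lam * (p.2 : ℤ) = t0 (m p'.1) + lam * (p'.2 : ℤ) := by
      rw [← Int.toNat_of_nonneg k1, ← Int.toNat_of_nonneg l1, e2]
    have e3 : m p.1 = m p'.1 := by rw [← k5, ← l5, e1', e2']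
    have e4 := hinj _ hp.1 _ hp'.1 e3
    have e5 : p.2 = p'.2 := by
      rw [e3] at e2'
      have : lam * (p.2 : ℤ) = lam * (p'.2 : ℤ) := by linarith
      exact_mod_cast mul_left_cancel₀ hlam.ne' this
    exact Prod.ext e4 e5
  have := E2_ge hS hΦ P (by
    intro p hp
    obtain ⟨x, hx, rfl⟩ := Finset.mem_image.1 hp
    have hx := Finset.mem_product.1 hx
    obtain ⟨k1, k2, k3, k4, k5⟩ := key x.1 hx.1 x.2 (Finset.mem_range.1 hx.2)
    dsimp only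
    refine ⟨by omega, by omega, ?_⟩
    rw [Int.toNat_of_nonneg k1, Int.toNat_of_nonneg k3]
    exact hΦ1 _ hx.1 _ _ k5)
  rw [hcard] at this
  push_cast at this
  exact this

/-- The approximation of `M f^{1/n}` in a residue class. -/
lemma choice {n : ℕ} (hn : 0 < n) {q : ℤ} (hq : 0 < q) (ζ : ℤ) (N : ℕ) {δ : ℝ} (hδ : 0 < δ) {f : ℝ} (hf : 0 < f) :
    ∀ᶠ M : ℕ in Filter.atTop, ∃ k : ℤ, ∀ v < N, 0 < ζ + q * (k + (v : ℤ)) ∧
      |((ζ + q * (k + (v : ℤ)) : ℤ) : ℝ) ^ n - (M : ℝ) ^ n * f| ≤ δ * ((M : ℝ) ^ n * f) := by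
  obtain ⟨r, hr, hrn⟩ : ∃ r : ℝ, 0 < r ∧ r ^ n = f :=
    ⟨f ^ ((n : ℝ)⁻¹), Real.rpow_pos_of_pos hf _, Real.rpow_inv_natCast_pow hf.le hn.ne'⟩
  have hcont : Filter.Tendsto (fun x : ℝ => x ^ n) (nhds r) (nhds f) := by
    rw [← hrn]
    exact (continuous_pow n).tendsto r
  obtain ⟨η, hη, hηr⟩ := Metric.tendsto_nhds_nhds.1 hcont (δ * f) (by positivity)
  have hq' : (0 : ℝ) < q := by exact_mod_cast hq
  have e1 := (tendsto_natCast_atTop_atTop (R := ℝ)).eventually_gt_atTop ((q * (1 + N)) / η)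
  have e2 := (tendsto_natCast_atTop_atTop (R := ℝ)).eventually_gt_atTop 0
  filter_upwards [e1, e2] with M h1 h2
  rw [div_lt_iff₀ hη] at h1
  refine ⟨⌈((M : ℝ) * r - ζ) / q⌉, fun v hv => ?_⟩
  set k : ℤ := ⌈((M : ℝ) * r - ζ) / q⌉ with hk
  have hk1 : ((M : ℝ) * r - ζ) / q ≤ k := Int.le_ceil _
  have hk2 : (k : ℝ) < ((M : ℝ) * r - ζ) / q + 1 := Int.ceil_lt_add_one _
  rw [div_le_iff₀ hq'] at hk1
  have hk3 : (k : ℝ) * q < ((M : ℝ) * r - ζ) + q := by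
    have := mul_lt_mul_of_pos_right hk2 hq'
    rwa [add_mul, div_mul_cancel₀ _ hq'.ne', one_mul] at this
  have hvN : (v : ℝ) ≤ N := by exact_mod_cast hv.le
  have hv0 : (0 : ℝ) ≤ v := Nat.cast_nonneg _
  have hqv : 0 ≤ (q : ℝ) * v := by positivity
  have hqN : (q : ℝ) * v ≤ q * N := mul_le_mul_of_nonneg_left hvN hq'.le
  set Z : ℝ := ((ζ + q * (k + (v : ℤ)) : ℤ) : ℝ) with hZ
  have hZe : Z = ζ + k * q + q * v := by rw [hZ]; push_cast; ring
  have hZ1 : (M : ℝ) * r ≤ Z := by rw [hZe]; linarith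
  have hZ2 : Z < M * r + q * (1 + N) := by rw [hZe]; linarith
  have hMr : 0 < (M : ℝ) * r := by positivity
  constructor
  · have : (0 : ℝ) < Z := by linarith
    rw [hZ] at this
    exact_mod_cast this
  · have h3 : dist (Z / M) r < η := by
      rw [Real.dist_eq]
      have e : Z / M - r = (Z - M * r) / M := by field_simp
      rw [e, abs_div, abs_of_nonneg (by linarith), abs_of_pos h2, div_lt_iff₀ h2]
      linarith
    have h4 := hηr h3
    rw [Real.dist_eq, div_pow] at h4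
    have hMn : (0 : ℝ) < (M : ℝ) ^ n := by positivity
    have h5 : |Z ^ n - (M : ℝ) ^ n * f| = (M : ℝ) ^ n * |Z ^ n / (M : ℝ) ^ n - f| := by
      rw [← abs_of_pos hMn, ← abs_mul, abs_of_pos hMn]
      congr 1
      field_simp
    rw [h5]
    nlinarith [mul_lt_mul_of_pos_left h4 hMn]

end Pool.Agent.H53.PZ
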