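import Pool.Agent.H53.PZ.Gamma0

open Finset

namespace Pool.Agent.H53.PZ

open Pool.Agent.H38.PZ

lemma est {X lam A y q S A' δ B : ℝ} (hX : 0 < X) (hlam : |lam - X| ≤ δ * X) (hδ0 : 0 < δ) (hδ : δ ≤ 1 / 8)
    (hδA : δ * A' ≤ 1 / 16) (hA0 : 0 < A) (hy0 : 0 < y) (hyA : y ≤ A' * S) (hq : 1 ≤ q) (hS : 0 < S)
    (hXA : 16 * A ≤ X) (hXA' : 16 * A * A' ≤ X) (hB1 : X * (y + 3 * (q * S) / 8) ≤ B)
    (hB2 : B ≤ X * (y + 5 * (q * S) / 8)) :
    0 ≤ B - (lam - A) * y ∧ B - (lam - A) * y + q * A * S ≤ q * lam * S := by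
  obtain ⟨l1, l2⟩ := abs_le.1 hlam
  have u1 : S ≤ q * S := by nlinarith
  have u2 : δ * y ≤ q * S / 16 := by
    calc δ * y ≤ δ * (A' * S) := mul_le_mul_of_nonneg_left hyA hδ0.le
      _ = (δ * A') * S := by ring
      _ ≤ 1 / 16 * S := mul_le_mul_of_nonneg_right hδA hS.le
      _ ≤ q * S / 16 := by linarith
  have u3 : X * (δ * y) ≤ X * (q * S / 16) := mul_le_mul_of_nonneg_left u2 hX.le
  have u4 : A * y ≤ X * (q * S) / 16 := by
    have h1 : A * y ≤ A * (A' * S) := mul_le_mul_of_nonneg_left hyA hA0.le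
    have h2 : (16 * A * A') * S ≤ X * S := mul_le_mul_of_nonneg_right hXA' hS.le
    have h3 : X * S ≤ X * (q * S) := mul_le_mul_of_nonneg_left u1 hX.le
    linarith
  have u5 : (16 * A) * (q * S) ≤ X * (q * S) := mul_le_mul_of_nonneg_right hXA (by linarith)
  have u6 : lam * y ≤ (X + δ * X) * y := mul_le_mul_of_nonneg_right (by linarith) hy0.le
  have u7 : (X - δ * X) * y ≤ lam * y := mul_le_mul_of_nonneg_right (by linarith) hy0.le
  have u8 : (X - δ * X) * (q * S) ≤ lam * (q * S) := mul_le_mul_of_nonneg_right (by linarith) (by linarith)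
  have u9 : δ * (X * (q * S)) ≤ 1 / 8 * (X * (q * S)) := mul_le_mul_of_nonneg_right hδ (by
    have : 0 ≤ q * S := by linarith
    positivity)
  have u10 : 0 ≤ A * y := by positivity
  have u11 : 0 ≤ X * (q * S) := by
    have : 0 ≤ q * S := by linarith
    positivity
  constructor
  · linarith
  · linarith

lemma crt {j o : ℕ} (ho : Odd o) (y : ℤ) {q : ℕ} (hq : q = 2 ^ j * o) (H : ℝ) :
    ∃ h0 : ℤ, H ≤ h0 ∧ (h0 : ℝ) < H + q ∧ (o : ℤ) ∣ h0 ∧ (2 : ℤ) ^ j ∣ h0 - y := by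
  have hc : IsCoprime ((2 : ℤ) ^ j) (o : ℤ) := by
    apply IsCoprime.pow_left
    obtain ⟨c, hc⟩ := ho
    exact ⟨-c, 1, by rw [hc]; push_cast; ring⟩
  obtain ⟨u, w, huw⟩ := hc
  have ho0 : 0 < o := ho.pos
  have hq0 : (0 : ℝ) < q := by
    rw [hq]; push_cast
    have : (0 : ℝ) < o := by exact_mod_cast ho0
    positivity
  have hqz : (q : ℤ) = 2 ^ j * o := by rw [hq]; push_cast; ring
  set c : ℤ := w * o * y with hcd
  refine ⟨c + q * ⌈(H - c) / q⌉, ?_, ?_, ?_, ?_⟩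
  · have := Int.le_ceil ((H - c) / q)
    rw [div_le_iff₀ hq0] at this
    push_cast
    linarith
  · have := mul_lt_mul_of_pos_right (Int.ceil_lt_add_one ((H - c) / q)) hq0
    rw [add_mul, div_mul_cancel₀ _ hq0.ne', one_mul] at this
    push_cast
    linarith
  · rw [hqz, hcd]
    refine Dvd.dvd.add ⟨w * y, by ring⟩ ⟨2 ^ j * ⌈(H - ↑(w * ↑o * y)) / ↑q⌉, by ring⟩
  · generalize ⌈(H - c) / q⌉ = k
    rw [hqz, hcd]
    exact ⟨-u * y + o * k, by linear_combination y * huw⟩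

lemma final {A b : ℕ} (hA : 0 < A) (hb : 0 < b) {q S R : ℕ} {f lam y h0 : ℤ} {T : Set ℤ} (hS : 0 < S)
    (hq : 0 < q) (hlam : 0 < lam) (hc : IsCoprime lam (A : ℤ)) (hR : lam * R ≤ S) (hf : 0 < f)
    (W : Finset ℕ) (hdiv : ∀ g ∈ W, (q : ℤ) ∣ b * f * (h0 + q * g) - (lam - A) * y)
    (h1 : ∀ g ∈ W, 0 ≤ b * f * (h0 + q * g) - (lam - A) * y)
    (h2 : ∀ g ∈ W, b * f * (h0 + q * g) - (lam - A) * y + q * A * S ≤ q * lam * S)
    (hT : ∀ g ∈ W, f * (h0 + q * g) ∈ T) :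
    (W.card : ℝ) * R ≤ E2 S (fun s t => ind T (((lam - A) * y + q * (lam * s - A * t)) / b)) * (S : ℝ) ^ 2 := by
  have hq' : (0 : ℤ) < q := by exact_mod_cast hq
  have hb' : (0 : ℤ) < b := by exact_mod_cast hb
  have hA' : (0 : ℤ) < A := by exact_mod_cast hA
  set m : ℕ → ℤ := fun g => (b * f * (h0 + q * g) - (lam - A) * y) / q with hm
  have hqm : ∀ g ∈ W, q * m g = b * f * (h0 + q * g) - (lam - A) * y := fun g hg =>
    Int.mul_ediv_cancel' (hdiv g hg)
  refine count hS hlam hA' hc hR (Φ := fun s t => ind T (((lam - A) * y + q * (lam * s - A * t)) / b))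
    (fun s t => by unfold ind; split_ifs <;> norm_num) W m ?_ ?_ ?_ ?_
  · intro g hg g' hg' h
    have e1 := hqm g hg
    have e2 := hqm g' hg'
    rw [h] at e1
    have e3 : (b * f * q) * (g : ℤ) = (b * f * q) * (g' : ℤ) := by linear_combination e2 - e1
    have := mul_left_cancel₀ (by positivity) e3
    exact_mod_cast this
  · intro g hg
    have e1 := h1 g hg
    rw [← hqm g hg] at e1
    exact nonneg_of_mul_nonneg_right e1 hq'
  · intro g hg
    have e1 := h2 g hg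
    rw [← hqm g hg] at e1
    refine le_of_mul_le_mul_left (a := (q : ℤ)) ?_ hq'
    linarith
  · intro g hg s t hst
    have e1 := hqm g hg
    have e2 : (lam - A) * y + q * (lam * s - A * t) = b * (f * (h0 + q * g)) := by
      rw [hst, e1]; ring
    have e3 : ind T (((lam - A) * y + q * (lam * s - A * t)) / b) = 1 := by
      rw [e2, Int.mul_ediv_cancel_left _ hb'.ne', ind, if_pos (hT g hg)]
    exact e3.ge

end Pool.Agent.H53.PZ
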